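import Pool.Agent.helper41.CL.SpecC

/-!
# Row DT
-/

set_option autoImplicit false

namespace Pool.Agent.helper41.CL

open Finset

theorem DT_pair_ne {α : Type} [DecidableEq α] {p a b : α} (hab : a ≠ b) (hpa : p ≠ a) :
    ({p, a} : Finset α) ≠ {p, b} := by
  intro h
  have : a ∈ ({p, b} : Finset α) := by rw [← h]; simp
  rw [mem_insert, mem_singleton] at this
  rcases this with h | h
  · exact hpa h.symm
  · exact hab h

theorem DT_E1 {α : Type} [DecidableEq α] (E : Finset (Finset α)) (p a b : α)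
    (hab : a ≠ b) (hpa : p ≠ a) (h1 : ({p, a} : Finset α) ∈ E) (h2 : ({p, b} : Finset α) ∈ E)
    (h3 : ∀ e ∈ E, p ∈ e → e = {p, a} ∨ e = {p, b}) :
    #(E.filter fun e => p ∉ e) = #E - 2 := by
  have hE : (E.filter fun e => p ∉ e) = (E.erase {p, a}).erase {p, b} := by
    ext x
    rw [mem_filter, mem_erase, mem_erase]
    constructor
    · rintro ⟨hx, hp⟩
      refine ⟨?_, ?_, hx⟩
      · rintro rfl; exact hp (by simp)
      · rintro rfl; exact hp (by simp)
    · rintro ⟨hb, ha, hx⟩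
      refine ⟨hx, fun hp => ?_⟩
      rcases h3 x hx hp with h | h
      · exact ha h
      · exact hb h
  rw [hE, card_erase_of_mem, card_erase_of_mem h1]
  · omega
  · rw [mem_erase]
    exact ⟨(DT_pair_ne hab hpa).symm, h2⟩

theorem DT_E0 {α : Type} [DecidableEq α] (E : Finset (Finset α)) (p a b : α)
    (hab : a ≠ b) (hpa : p ≠ a) (h1 : ({p, a} : Finset α) ∈ E) (h2 : ({p, b} : Finset α) ∈ E)
    (h4 : 2 ≤ #(inc E a)) :
    #(E.filter fun e => p ∉ e ∧ a ∉ e ∧ b ∉ e) ≤ #E - 3 := by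
  obtain ⟨f, hf, hfne⟩ := exists_mem_ne (show 1 < #(inc E a) by omega) ({p, a} : Finset α)
  rw [inc, mem_filter] at hf
  have hfb : f ≠ {p, b} := by
    rintro rfl
    have := hf.2
    rw [mem_insert, mem_singleton] at this
    rcases this with h | h
    · exact hpa h.symm
    · exact hab h
  have hsub : (E.filter fun e => p ∉ e ∧ a ∉ e ∧ b ∉ e) ⊆
      ((E.erase {p, a}).erase {p, b}).erase f := by
    intro x hx
    rw [mem_filter] at hx
    rw [mem_erase, mem_erase, mem_erase]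
    refine ⟨?_, ?_, ?_, hx.1⟩
    · rintro rfl; exact hx.2.2.1 hf.2
    · rintro rfl; exact hx.2.1 (by simp)
    · rintro rfl; exact hx.2.1 (by simp)
  refine (card_le_card hsub).trans ?_
  have m2 : ({p, b} : Finset α) ∈ E.erase {p, a} := by
    rw [mem_erase]; exact ⟨(DT_pair_ne hab hpa).symm, h2⟩
  have m3 : f ∈ (E.erase {p, a}).erase {p, b} := by
    rw [mem_erase, mem_erase]; exact ⟨hfb, hfne, hf.1⟩
  rw [card_erase_of_mem m3, card_erase_of_mem m2, card_erase_of_mem h1]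
  omega

theorem DT (h1 : SP_stmt) (h2 : WO_stmt) (h3 : EE_stmt) (h4 : EC_stmt) : DT_stmt := by
  intro α _ V E p a b q y hG hE5 hV hab hpa hpb hEa hEb hEp hda hqp hqa hqb hq hyV hyp hy
  have hpV : p ∈ V := (hG _ hEa).1 (by simp)
  have haV : a ∈ V := (hG _ hEa).1 (by simp)
  have hbV : b ∈ V := (hG _ hEb).1 (by simp)
  have c1 : #(E.filter fun e => p ∉ e) = #E - 2 := DT_E1 E p a b hab hpa hEa hEb hEp
  have c0 : #(E.filter fun e => p ∉ e ∧ a ∉ e ∧ b ∉ e) ≤ #E - 3 := DT_E0 E p a b hab hpa hEa hEb hda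
  have hG1 : Gr (V.erase p) (E.filter fun e => p ∉ e) := by
    intro f hf
    rw [mem_filter] at hf
    refine ⟨fun x hx => ?_, (hG f hf.1).2⟩
    rw [mem_erase]
    refine ⟨?_, (hG f hf.1).1 hx⟩
    rintro rfl
    exact hf.2 hx
  have hG0 : Gr (V \ {p, a, b}) (E.filter fun e => p ∉ e ∧ a ∉ e ∧ b ∉ e) := by
    intro f hf
    rw [mem_filter] at hf
    refine ⟨fun x hx => ?_, (hG f hf.1).2⟩
    rw [mem_sdiff, mem_insert, mem_insert, mem_singleton]
    refine ⟨(hG f hf.1).1 hx, ?_⟩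
    rintro (rfl | rfl | rfl)
    · exact hf.2.1 hx
    · exact hf.2.2.1 hx
    · exact hf.2.2.2 hx
  have cV : #(V \ {p, a, b}) = #V - 3 := by
    have hsub : ({p, a, b} : Finset α) ⊆ V := by
      intro x hx
      rw [mem_insert, mem_insert, mem_singleton] at hx
      rcases hx with rfl | rfl | rfl
      · exact hpV
      · exact haV
      · exact hbV
    rw [card_sdiff_of_subset hsub]
    have : #({p, a, b} : Finset α) = 3 := by
      rw [card_insert_of_notMem, card_insert_of_notMem, card_singleton]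
      · simpa using hab
      · simp [hpa, hpb]
    rw [this]
  -- with p
  have n1 := h4 α (V.erase p) (E.filter fun e => p ∉ e) hG1 (by omega)
    (by rw [card_erase_of_mem hpV, c1]; omega)
    ⟨y, by rw [mem_erase]; exact ⟨hyp, hyV⟩, by
      rw [inc, filter_eq_empty_iff]
      intro f hf hyf
      rw [mem_filter] at hf
      exact hf.2 (hy f hf.1 hyf)⟩
  -- without p
  have hq0 : 2 ≤ #(inc (E.filter fun e => p ∉ e ∧ a ∉ e ∧ b ∉ e) q) := by
    refine hq.trans (card_le_card fun f hf => ?_)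
    rw [mem_filter, inc, mem_filter] at hf
    rw [inc, mem_filter, mem_filter]
    refine ⟨⟨hf.1.1, ?_, hf.2.1, hf.2.2⟩, hf.1.2⟩
    intro hp
    rcases hEp f hf.1.1 hp with h | h
    · apply hf.2.1; rw [h]; simp
    · apply hf.2.2; rw [h]; simp
  have n0 := h3 α (V \ {p, a, b}) (E.filter fun e => p ∉ e ∧ a ∉ e ∧ b ∉ e) q (#E - 3) hG0 hq0 c0
    (by rw [cV]; omega)
  have w0 := h2 α V E p a b (#E - 4) haV hbV hpa hpb hab hEp
  have s0 := h1 α V E p (#E - 3) hpV
  rw [show #E - 3 + 1 = #E - 2 by omega] at s0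
  rw [show #E - 4 + 2 = #E - 2 by omega] at w0
  rw [show #E - 3 - 1 = #E - 4 by omega] at n0
  rw [c1, show #E - 2 - 1 = #E - 3 by omega] at n1
  have e1 : 2 ^ #E = 8 * 2 ^ (#E - 3) := by
    rw [show #E = (#E - 3) + 3 by omega, pow_add]
    rw [show #E - 3 + 3 - 3 = #E - 3 by omega]
    ring
  have e2 : 2 ^ (#E - 2) = 2 * 2 ^ (#E - 3) := by
    rw [show #E - 2 = (#E - 3) + 1 by omega, pow_succ]
    ring
  rw [e1, s0]
  rw [e2] at n1
  omega

end Pool.Agent.helper41.CL
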